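import Mathlib
import Pool.Agent.V11104.MM.Clu

set_option autoImplicit false

/-!
# The unit intervals that carry the moments of zeta

Off a set of small proportion the `2k`-th moment of zeta over `[T, T+H]`, `k > √2`, is carried by intervals of
length one whose starting points form a set of measure `H (log T)^(1 - k² + o(1))`, and no set of intervals of
length one of smaller measure (up to the `o(1)`) carries a positive proportion of it.

The first part uses the moments near the `2k`-th and a majorant for the local maxima, the second the bound of the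
order `H (log T)^(k² - 1)` for the second moment of the integrals of `|ζ|^k` over intervals of length one.
-/

namespace Pool.Agent.Results.MP_6a632e_nt.ClustersOfMoments

open Filter MeasureTheory
open scoped ENNReal

/-- **Theorem.** For all `K ≥ 0` and `ε > 0` there is a measurable set `E` of real numbers such that: for every
`0 ≤ α < 1`, all large `T` and all `T / (log T)^α ≤ H ≤ T` the set `E` contains at least `(1 - ε) H` of the points of
`[T, T+H]`; and for every `η > 0` there are `c, C > 0` such that for every `0 ≤ α < 1`, all large `T`, all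
`T / (log T)^α ≤ H ≤ T` and all `0 ≤ k ≤ K` with `k² > 2` the following holds for the function `F(t)`, the
(Lebesgue) integral of `|ζ(1/2 + i(t + u))|^(2k)` over the `u` in `[0, 1]` with `t + u` in `E`. The integral of `F`
over `[T, T+H]` is finite; some measurable `A ⊆ [T, T+H]` of measure at most
`C H (log T)^(1 - k²) exp(C √(log log T))` carries all of it up to a proportion `η`; and every measurable
`A ⊆ [T, T+H]` of measure at most `c (k² - 2) H (log T)^(1 - k²) exp(-C √(log log T))` carries at most a proportion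
`η` of it. -/
theorem result (K ε : ℝ) (hK : 0 ≤ K) (hε : 0 < ε) :
    ∃ E : Set ℝ, MeasurableSet E ∧
    (∀ α : ℝ, 0 ≤ α → α < 1 → ∀ᶠ T : ℝ in atTop, ∀ H : ℝ, T / Real.log T ^ α ≤ H → H ≤ T →
      (1 - ε) * H ≤ volume.real (Set.Icc T (T + H) ∩ E)) ∧
    ∀ η : ℝ, 0 < η → ∃ c C : ℝ, 0 < c ∧ 0 < C ∧
    ∀ α : ℝ, 0 ≤ α → α < 1 → ∀ᶠ T : ℝ in atTop, ∀ H : ℝ, T / Real.log T ^ α ≤ H → H ≤ T →
      ∀ k : ℝ, 0 ≤ k → k ≤ K → 2 < k ^ 2 → ∀ F : ℝ → ℝ≥0∞,
        (F = fun t => ∫⁻ u in Set.Icc (0:ℝ) 1, E.indicator
          (fun s : ℝ => ENNReal.ofReal (‖riemannZeta (1 / 2 + s * Complex.I)‖ ^ (2 * k))) (t + u)) →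
        ∫⁻ t in Set.Icc T (T + H), F t ≠ ⊤ ∧
        (∃ A : Set ℝ, A ⊆ Set.Icc T (T + H) ∧ MeasurableSet A ∧
          volume.real A ≤ C * H * Real.log T ^ (1 - k ^ 2) * Real.exp (C * Real.sqrt (Real.log (Real.log T))) ∧
          ∫⁻ t in Set.Icc T (T + H) \ A, F t ≤ ENNReal.ofReal η * ∫⁻ t in Set.Icc T (T + H), F t) ∧
        ∀ A : Set ℝ, A ⊆ Set.Icc T (T + H) → MeasurableSet A →
          volume.real A ≤ c * (k ^ 2 - 2) * H * Real.log T ^ (1 - k ^ 2) *
            Real.exp (-(C * Real.sqrt (Real.log (Real.log T)))) →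
          ∫⁻ t in A, F t ≤ ENNReal.ofReal η * ∫⁻ t in Set.Icc T (T + H), F t :=
  Pool.Agent.V11104.MM.clusters K ε hK hε

end Pool.Agent.Results.MP_6a632e_nt.ClustersOfMoments
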