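import Pool.Agent.V11128.CXL.I
import Pool.Agent.V1167.PP.Nat

/-!
# MP_6a632e_nt: means of order `2k` of all homogeneous functions of shifted values of ζ, for all `k ≥ 3`

Let `k ≥ 3`, let `δ(T) → 0` and `δ(T) log T → ∞`, and let `S` be a countable set of shifts. Off sets
`E(T) ⊆ [0, T]` of measure `o(δ^(2k) T)`, at each point of which
`|ζ(1/2 + δ + i(t + xδ))| > δ^(-(k+2)/2)` for some `x ∈ S ∪ {0}`, the following is true for all
`a_1, ..., a_n ∈ S` and for all continuous real functions `Φ` on `ℂ^n` with `Φ(λz) = |λ|^(2k) Φ(z)` for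
all complex `λ`: the mean over `t` of `Φ(ζ(1/2 + δ + i(t + a_1 δ)), ..., ζ(1/2 + δ + i(t + a_n δ)))` is
asymptotic to `a_k (2δ)^(-k²) E Φ(exp z_1, ..., exp z_n)`, where `z` is the circular complex normal vector
with means `-k ℓ(a_j)` and covariances `ℓ(a_j) + ℓ(-a_i) - ℓ(a_j - a_i)`, `ℓ(x) = log (1 + ix/2)`.

The case `Φ(z) = |z_1|^(2k)`, `a_1 = 0`, is the moment of order `2k` near the critical line. Other examples:
the moments of order `2k` of all linear combinations of shifted values (in particular of increments)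
and of the maximum of `|ζ|` over several points, and real powers `∏ |ζ(s_j)|^(κ_j)`, `∑ κ_j = 2k`.
-/

set_option autoImplicit false

namespace Pool.Agent.Results.MP_6a632e_nt.HomogeneousMoments

open Filter MeasureTheory Topology ProbabilityTheory

/-- The arithmetic factor `a_k = ∏_p (1 - 1/p)^(k²) ∑_m C(m + k - 1, m)² p^(-m)`. -/
noncomputable def ak (k : ℕ) : ℝ :=
  ∏' p : Nat.Primes, ((1 - 1 / (p : ℝ)) ^ (k ^ 2) * ∑' m : ℕ, ((m + k - 1).choose m : ℝ) ^ 2 * (1 / (p : ℝ)) ^ m)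

/-- `ζ(1/2 + δ + i(t + xδ))`. -/
noncomputable def Z (δ x t : ℝ) : ℂ :=
  riemannZeta (1 / 2 + δ + ((t + x * δ : ℝ) : ℂ) * Complex.I)

/-- `Φ(λz) = |λ|^(2k) Φ(z)` for all complex `λ`. -/
def IsHom (k : ℕ) {n : ℕ} (Φ : (Fin n → ℂ) → ℝ) : Prop :=
  ∀ (l : ℂ) (z : Fin n → ℂ), Φ (fun j => l * z j) = ‖l‖ ^ (2 * k) * Φ z

/-- `ℓ(x) = log (1 + ix/2)`, principal determination. -/
noncomputable def ell (x : ℝ) : ℂ := Complex.log (1 + Complex.I * (x : ℂ) / 2)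

/-- The means `-k ℓ(a_j)` of the limit law. -/
noncomputable def mean (k : ℕ) {n : ℕ} (a : Fin n → ℝ) (j : Fin n) : ℂ := -(k : ℂ) * ell (a j)

/-- The covariances `E (z_j - m_j) conj (z_i - m_i)` of the limit law. -/
noncomputable def cov {n : ℕ} (a : Fin n → ℝ) (j i : Fin n) : ℂ :=
  ell (a j) + ell (-a i) - ell (a j - a i)

/-- `ρ` is the circular complex normal law on `ℂ^n` with mean `m` and covariance matrix `K`: for each
`c ∈ ℂ^n`, the real part of `∑ c_j z_j` has the normal law with mean `Re ∑ c_j m_j` and variance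
`(1/2) Re ∑ c_j conj(c_i) K_ji ≥ 0`. -/
def IsCNormal {n : ℕ} (m : Fin n → ℂ) (K : Fin n → Fin n → ℂ) (ρ : ProbabilityMeasure (Fin n → ℂ)) :
    Prop :=
  ∀ c : Fin n → ℂ, 0 ≤ (∑ j, ∑ i, c j * (starRingEnd ℂ) (c i) * K j i).re / 2 ∧
    (ρ : Measure (Fin n → ℂ)).map (fun z => (∑ j, c j * z j).re) =
      gaussianReal (∑ j, c j * m j).re ((∑ j, ∑ i, c j * (starRingEnd ℂ) (c i) * K j i).re / 2).toNNReal

/-- Let `k ≥ 3`, let `δ(T) → 0` and `δ(T) log T → ∞`, and let `S` be a countable set of shifts. There are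
sets `E(T) ⊆ [0, T]` of measure `o(T δ^(2k))`, at each point of which
`|ζ(1/2 + δ + i(t + xδ))| > δ^(-(k+2)/2)` for some `x ∈ S ∪ {0}`, such that for all `a_1, ..., a_n ∈ S`, with
the circular complex normal law `ρ` of mean `-k ℓ(a_j)` and covariance `ℓ(a_j) + ℓ(-a_i) - ℓ(a_j - a_i)`:
for all continuous `Φ` with `Φ(λz) = |λ|^(2k) Φ(z)`, the function `Φ(exp z_1, ..., exp z_n)` is
`ρ`-integrable and

`(2δ)^(k²) (1/T) ∫_{[0,T] \ E(T)} Φ(ζ(1/2 + δ + i(t + a_1 δ)), ..., ζ(1/2 + δ + i(t + a_n δ))) dt`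
`→ a_k ∫ Φ(exp z_1, ..., exp z_n) dρ(z)`. -/
theorem result (k : ℕ) (hk : 3 ≤ k) (δ : ℝ → ℝ) (hδ : Tendsto δ atTop (𝓝 0))
    (hδL : Tendsto (fun T : ℝ => δ T * Real.log T) atTop atTop) (S : Set ℝ) (hS : S.Countable) :
    0 < ak k ∧ ∃ E : ℝ → Set ℝ,
      (∀ T, MeasurableSet (E T) ∧ E T ⊆ Set.Icc 0 T ∧ ∀ t ∈ E T, ∃ x ∈ insert 0 S,
        (δ T) ^ (-(((k : ℝ) + 2) / 2)) < ‖Z (δ T) x t‖) ∧
      Tendsto (fun T => (volume (E T)).toReal / (T * (δ T) ^ (2 * k))) atTop (𝓝 0) ∧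
      ∀ (n : ℕ) (a : Fin n → ℝ), (∀ j, a j ∈ S) →
        ∃ ρ : ProbabilityMeasure (Fin n → ℂ), IsCNormal (mean k a) (cov a) ρ ∧
          ∀ Φ : (Fin n → ℂ) → ℝ, Continuous Φ → IsHom k Φ →
            Integrable (fun z => Φ (fun j => Complex.exp (z j))) (ρ : Measure (Fin n → ℂ)) ∧
            Tendsto (fun T : ℝ => (2 * δ T) ^ (k ^ 2) / T *
              ∫ t in Set.Icc 0 T \ E T, Φ (fun j => Z (δ T) (a j) t)) atTop
              (𝓝 (ak k * ∫ z, Φ (fun j => Complex.exp (z j)) ∂(ρ : Measure (Fin n → ℂ)))) := by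
  have hk3 : (3 : ℝ) ≤ (k : ℝ) := by exact_mod_cast hk
  have hak : ak k = Pool.Agent.H306R2.aF (k : ℝ) := (Pool.Agent.V1167.PP.aF_nat k (by omega)).symm
  obtain ⟨E, hE, hvol, hm⟩ := Pool.Agent.V11128.CXL.homog_small hδ hδL (c := ((k : ℝ) - 2) / 2) (by linarith) hS
    (Set.countable_singleton (2 * (k : ℝ))) (fun β hβ => by rw [Set.mem_singleton_iff.1 hβ]; linarith)
  have e1 : (4 + 4 * (((k : ℝ) - 2) / 2) : ℝ) = ((2 * k : ℕ) : ℝ) := by push_cast; ring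
  have e2 : (-(2 + ((k : ℝ) - 2) / 2) : ℝ) = -(((k : ℝ) + 2) / 2) := by ring
  rw [e1] at hvol
  simp_rw [Real.rpow_natCast] at hvol
  refine ⟨?_, E, fun T => ⟨(hE T).1, (hE T).2.1, fun t ht => ?_⟩, hvol, fun n a ha => ?_⟩
  · rw [hak]
    exact Pool.Agent.H306R2.aF_pos (by linarith)
  · rw [← e2]
    exact (hE T).2.2 t ht
  · obtain ⟨ρ, hρ, hF⟩ := hm (2 * (k : ℝ)) rfl (Or.inr (by linarith)) n a ha
    obtain ⟨ρ', h1, h2⟩ := Pool.Agent.V11128.CXL.toC (2 * (k : ℝ)) a hρ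
    refine ⟨ρ', ?_, fun Φ hc hh => ?_⟩
    · have e3 : mean k a = fun j => -(((2 * (k : ℝ) : ℝ) : ℂ) / 2 : ℂ) * ell (a j) := by
        funext j
        unfold mean
        congr 1
        push_cast
        ring
      rw [e3]
      exact h1
    · obtain ⟨h3, h4⟩ := hF Φ hc (fun l z => by
        have := hh l z
        rw [this, ← Real.rpow_natCast]
        push_cast
        rfl)
      obtain ⟨h5, h6⟩ := h2 Φ hc
      refine ⟨h5 h3, ?_⟩
      rw [h6]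
      have e4 : (2 * (k : ℝ)) / 2 = (k : ℝ) := by ring
      have e5 : ((k : ℝ) ^ 2) = ((k ^ 2 : ℕ) : ℝ) := by push_cast; ring
      rw [e4, e5] at h4
      simp_rw [Real.rpow_natCast] at h4
      rw [hak]
      exact h4

end Pool.Agent.Results.MP_6a632e_nt.HomogeneousMoments
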